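import Pool.Agent.N763.QB.Loc
import Pool.Agent.N875.K17.Stm

/-!
# Project K17 (helper875): K17-GU, sufficient condition at the places of good reduction
-/

set_option autoImplicit false
set_option linter.unusedSectionVars false
set_option linter.unusedVariables false

namespace Pool.Agent.N400.K17

open NumberField IsDedekindDomain
open Pool.Agent.N763.QB (io all_units isq_mul)
open Pool.Agent.N856.QB (Lo)
open Pool.Agent.N875.K17 (Qd LoE S_GU)

section

variable {K : Type} [Field K] [NumberField K] {w : HeightOneSpectrum (𝓞 K)}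

lemma int_notMem {p : ℕ} (hp : p.Prime) (hw : ((p : ℕ) : 𝓞 K) ∈ w.asIdeal) {z : ℤ}
    (hz : ¬ (p : ℤ) ∣ z) : ((z : ℤ) : 𝓞 K) ∉ w.asIdeal := by
  intro h
  have hcop : IsCoprime (p : ℤ) z := (Nat.prime_iff_prime_int.1 hp).coprime_iff_not_dvd.2 hz
  obtain ⟨s, t, hst⟩ := hcop
  apply w.isPrime.ne_top
  rw [Ideal.eq_top_iff_one]
  have h3 := congrArg (fun z : ℤ => (z : 𝓞 K)) hst
  push_cast at h3
  rw [← h3]
  exact w.asIdeal.add_mem (w.asIdeal.mul_mem_left _ hw) (w.asIdeal.mul_mem_left _ h)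

lemma io_int (z : ℤ) : io w (z : 𝓞 K) = (z : w.adicCompletion K) := map_intCast _ _

/-- the divisors of `m` are units up to squares -/
lemma repr_unit {m : ℤ} {p : ℕ} (hp : p.Prime) (hd : Squarefree m) {r : K}
    (hr : r ^ 2 = (m : K)) {a : ℤ} (ha : Squarefree a) (hdv : (p : ℤ) ∣ a → (p : ℤ) ∣ m) :
    ∃ u : ℤ, ¬ (p : ℤ) ∣ u ∧ ∃ ρ : w.adicCompletion K, ρ ≠ 0 ∧
      (a : w.adicCompletion K) = (u : w.adicCompletion K) * ρ ^ 2 := by
  have hpz := Nat.prime_iff_prime_int.1 hp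
  by_cases h : (p : ℤ) ∣ a
  · obtain ⟨d', rfl⟩ := hdv h
    obtain ⟨a', rfl⟩ := h
    have hd' : ¬ (p : ℤ) ∣ d' := by
      intro h3
      exact hpz.not_isUnit (hd p (mul_dvd_mul_left _ h3))
    have ha' : ¬ (p : ℤ) ∣ a' := by
      intro h3
      exact hpz.not_isUnit (ha p (mul_dvd_mul_left _ h3))
    have hd0 : d' ≠ 0 := by
      rintro rfl
      exact hd' (dvd_zero _)
    have hdK : (d' : K) ≠ 0 := Int.cast_ne_zero.2 hd0
    have hdL : (d' : w.adicCompletion K) ≠ 0 := by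
      intro h0
      apply hdK
      apply (algebraMap K (w.adicCompletion K)).injective
      rw [map_intCast, map_zero]
      exact h0
    have hpL : (p : w.adicCompletion K) ≠ 0 := by
      intro h0
      have : (p : K) ≠ 0 := Nat.cast_ne_zero.2 hp.ne_zero
      apply this
      apply (algebraMap K (w.adicCompletion K)).injective
      rw [map_natCast, map_zero]
      exact h0
    have hrL : (algebraMap K (w.adicCompletion K) r) ^ 2 = (p : w.adicCompletion K) * d' := by
      have e : (((p : ℤ) * d' : ℤ) : K) = (p : K) * (d' : K) := by push_cast; ring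
      rw [← map_pow, hr, e, map_mul]
      congr 1
      · exact map_natCast (algebraMap K (w.adicCompletion K)) p
      · exact map_intCast (algebraMap K (w.adicCompletion K)) d'
    refine ⟨a' * d', ?_, algebraMap K (w.adicCompletion K) r / d', ?_, ?_⟩
    · intro h3
      rcases hpz.dvd_or_dvd h3 with h4 | h4
      · exact ha' h4
      · exact hd' h4
    · apply div_ne_zero _ hdL
      intro h0
      rw [h0, zero_pow two_ne_zero] at hrL
      exact mul_ne_zero hpL hdL hrL.symm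
    · push_cast
      rw [div_pow, hrL]
      field_simp
  · exact ⟨a, h, 1, one_ne_zero, by rw [one_pow, mul_one]⟩

end

/-- **K17-GU** -/
theorem t_GU : S_GU := by
  intro m hm hm1 K _ _ r hQ p hp hpn w hw a b ha hb had hbd
  have hpz := Nat.prime_iff_prime_int.1 hp
  have h2' : ¬ (p : ℤ) ∣ 2 := by
    intro h
    exact hpn ((Int.natCast_dvd_natCast.1 h).trans ⟨17, by norm_num⟩)
  have h17' : ¬ (p : ℤ) ∣ 17 := by
    intro h
    exact hpn ((Int.natCast_dvd_natCast.1 h).trans ⟨2, by norm_num⟩)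
  have h2 : (2 : 𝓞 K) ∉ w.asIdeal := by
    have := int_notMem hp hw h2'
    exact_mod_cast this
  obtain ⟨u, hu, ρ, hρ, e1⟩ := repr_unit (w := w) hp hm hQ.hr ha had
  obtain ⟨v, hv, σ, hσ, e2⟩ := repr_unit (w := w) hp hm hQ.hr hb hbd
  have hmul : ∀ {x y : ℤ}, ¬ (p : ℤ) ∣ x → ¬ (p : ℤ) ∣ y → ¬ (p : ℤ) ∣ x * y := by
    intro x y hx hy h
    rcases hpz.dvd_or_dvd h with h | h
    · exact hx h
    · exact hy h
  have d1 : ¬ (p : ℤ) ∣ (0 : ℤ) - (-1) := by
    intro h
    exact hpz.not_isUnit (isUnit_of_dvd_one (by simpa using h))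
  have d2 : ¬ (p : ℤ) ∣ (0 : ℤ) - 16 := by
    have e : (0 : ℤ) - 16 = -((2 * 2) * (2 * 2)) := by ring
    rw [e, dvd_neg]
    exact hmul (hmul h2' h2') (hmul h2' h2')
  have d3 : ¬ (p : ℤ) ∣ (-1 : ℤ) - 16 := by
    have e : (-1 : ℤ) - 16 = -17 := by ring
    rw [e, dvd_neg]
    exact h17'
  have m1 := int_notMem hp hw d1
  have m2 := int_notMem hp hw d2
  have m3 := int_notMem hp hw d3
  rw [Int.cast_sub] at m1 m2 m3
  obtain ⟨x, y, hy0, he, q1, q2⟩ := all_units h2 m1 m2 m3 (int_notMem hp hw hu)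
    (int_notMem hp hw hv)
  rw [io_int, io_int] at q1 q2
  rw [io_int, io_int, io_int] at he
  refine ⟨x, y, hy0, he, ?_, ?_⟩
  · rw [e1, ← mul_assoc]
    exact isq_mul q1 ⟨ρ, sq ρ⟩
  · rw [e2, ← mul_assoc]
    exact isq_mul q2 ⟨σ, sq σ⟩

end Pool.Agent.N400.K17
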